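import Pool.Agent.Helper58_MOO.Stmts

/-!
MOO project (MP_6f3246_lc), module PHI (helper97): the generic map of the forcing `PH`.
-/

set_option autoImplicit false

open Cardinal
open Pool.Agent.Helper69_LOTS

namespace Pool.Agent.MOO.H97

open Node

/-- The disjoint union of `ω₁` and the nodes of `T` injects into `ω₁`. -/
theorem exists_index {T : Set Node} (hT : ∀ δ, {s | s ∈ T ∧ s.ht = δ}.Countable) :
    Nonempty ((Om ⊕ {s : Node // s ∈ T}) ↪ Om) := by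
  have h1 : ∀ δ, ∃ f : Node → ℕ, Set.InjOn f {s | s ∈ T ∧ s.ht = δ} := fun δ =>
    Set.countable_iff_exists_injOn.1 (hT δ)
  choose f hf using h1
  let F : (Om ⊕ {s : Node // s ∈ T}) → Om ⊕ (Om × ℕ) :=
    Sum.map id (fun s => (s.1.ht, f s.1.ht s.1))
  have hF : Function.Injective F := by
    apply Function.Injective.sumMap Function.injective_id
    rintro ⟨s, hs⟩ ⟨t, ht⟩ h
    simp only [Prod.mk.injEq] at h
    have h2 : s = t := by
      apply hf s.ht ⟨hs, rfl⟩ ⟨ht, h.1.symm⟩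
      rw [h.2, h.1]
    exact Subtype.ext h2
  have h2 : #(Om ⊕ (Om × ℕ)) ≤ #Om := by
    have h3 : ℵ₀ ≤ #Om := by rw [mk_Om]; exact aleph0_le_aleph 1
    have h4 : #(Om × ℕ) ≤ #Om := by
      rw [mk_prod, lift_id, lift_id, mk_nat]
      exact (mul_le_max_of_aleph0_le_left h3).trans (max_le le_rfl h3)
    rw [mk_sum, lift_id, lift_id]
    exact Cardinal.add_le_of_le h3 le_rfl h4
  obtain ⟨e⟩ := Cardinal.le_def _ _ |>.1 h2
  exact ⟨⟨fun i => e (F i), e.injective.comp hF⟩⟩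

theorem phi (h1 : CslStmt) (h2 : PhpStmt) (h3 : PhdStmt) : PhiStmt := by
  intro pfa T S hT hS
  obtain ⟨C, hC⟩ := h1 S hS
  have hprop : Proper (PH T S C) := h2 T S C hT hS hC.clb
  have : Nonempty (PH T S C) :=
    ⟨{ lev := ∅, gr := ∅
       levC := by simp
       mem := by simp
       res := by simp
       inj := by simp
       sgn := by simp }⟩
  obtain ⟨e⟩ := exists_index hT.lev
  -- the dense sets
  let D' : (Om ⊕ {s : Node // s ∈ T}) → Set (PH T S C) := fun i =>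
    Sum.elim (fun α => {p | ∃ ξ ∈ p.lev, α < ξ})
      (fun x => {p | (∃ y, (x.1, y) ∈ p.gr) ∨ ∀ q ≤ p, x.1.ht ∉ q.lev}) i
  have hD' : ∀ i, Dns (D' i) := by
    rintro (α | x) p
    · -- add a level
      have hcnt : ({α} ∪ (p.lev : Set Om) ∪ (fun r : Node × Node => r.1.ht) '' (p.gr : Set (Node × Node))).Countable :=
        ((Set.countable_singleton α).union (Finset.countable_toSet _)).union
          ((Finset.countable_toSet _).image _)
      obtain ⟨β, hβ⟩ := Om_bdd hcnt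
      obtain ⟨ξ, hξC, hξ⟩ := hC.clb.1 β
      refine ⟨{ lev := insert ξ p.lev, gr := p.gr
                levC := ?_, mem := ?_, res := ?_, inj := p.inj, sgn := p.sgn }, ?_, ?_⟩
      · intro η hη
        rcases Finset.mem_insert.1 hη with h | h
        · rw [h]; exact hξC
        · exact p.levC η h
      · intro r hr
        obtain ⟨a1, a2, a3, a4⟩ := p.mem r hr
        exact ⟨a1, a2, a3, Finset.mem_insert_of_mem a4⟩
      · intro r hr η hη hle
        rcases Finset.mem_insert.1 hη with h | h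
        · exfalso
          have h4 : r.1.ht < β := hβ _ (Or.inr ⟨r, hr, rfl⟩)
          rw [h] at hle
          exact lt_irrefl _ ((hξ.trans_le hle).trans h4)
        · exact p.res r hr η h hle
      · refine ⟨ξ, Finset.mem_insert_self _ _, ?_⟩
        exact (hβ α (Or.inl (Or.inl rfl))).trans hξ
      · exact ⟨Finset.subset_insert _ _, Finset.Subset.refl _⟩
    · by_cases h : ∀ q ≤ p, x.1.ht ∉ q.lev
      · exact ⟨p, Or.inr h, le_rfl⟩
      · push Not at h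
        obtain ⟨q, hq, hqx⟩ := h
        obtain ⟨q', hq', y, hy⟩ := h3 T S C hT hS hC q x.1 x.2 hqx
        exact ⟨q', Or.inl ⟨y, hy⟩, hq'.trans hq⟩
  classical
  let D : Om → Set (PH T S C) := fun α => if h : ∃ i, e i = α then D' h.choose else Set.univ
  have hD : ∀ α, Dns (D α) := by
    intro α
    simp only [D]
    split_ifs with h
    · exact hD' _
    · exact fun p => ⟨p, Set.mem_univ _, le_rfl⟩
  have hDe : ∀ i, D (e i) = D' i := by
    intro i
    have hex : ∃ j, e j = e i := ⟨i, rfl⟩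
    simp only [D]
    rw [dif_pos hex]
    congr 1
    exact e.injective hex.choose_spec
  obtain ⟨G, hGne, hGup, hGdir, hGD⟩ := pfa (PH T S C) hprop D hD
  -- the levels and the graph
  let E : Set Om := {ξ | ∃ p ∈ G, ξ ∈ p.lev}
  let R : Node → Node → Prop := fun x y => ∃ p ∈ G, (x, y) ∈ p.gr
  have hdom : ∀ x ∈ T, x.ht ∈ E → ∃ y, R x y := by
    intro x hx hxE
    obtain ⟨p, hp, hpD⟩ := hGD (e (Sum.inr ⟨x, hx⟩))
    rw [hDe] at hpD
    rcases hpD with ⟨y, hy⟩ | hpD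
    · exact ⟨y, p, hp, hy⟩
    · obtain ⟨p', hp', hlev⟩ := hxE
      obtain ⟨r, hr, hrp, hrp'⟩ := hGdir p hp p' hp'
      exact absurd (hrp'.1 hlev) (hpD r hrp)
  have huniq : ∀ x y y', R x y → R x y' → y = y' := by
    rintro x y y' ⟨p, hp, hxy⟩ ⟨p', hp', hxy'⟩
    obtain ⟨r, hr, hrp, hrp'⟩ := hGdir p hp p' hp'
    exact (r.inj _ (hrp.2 hxy) _ (hrp'.2 hxy')).1 rfl
  let φ : Node → Node := fun x => if h : ∃ y, R x y then h.choose else x
  have hφ : ∀ x ∈ T, x.ht ∈ E → R x (φ x) := by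
    intro x hx hxE
    have h := hdom x hx hxE
    simp only [φ]
    rw [dif_pos h]
    exact h.choose_spec
  have hφu : ∀ x y, R x y → φ x = y := by
    intro x y hxy
    have h : ∃ y, R x y := ⟨y, hxy⟩
    simp only [φ]
    rw [dif_pos h]
    exact huniq x _ _ h.choose_spec hxy
  have hφmem : ∀ s ∈ T, s.ht ∈ E → φ s ∈ S ∧ (φ s).ht = s.ht := by
    intro s hs hsE
    obtain ⟨p, hp, hps⟩ := hφ s hs hsE
    obtain ⟨a1, a2, a3, a4⟩ := p.mem _ hps
    exact ⟨a2, a3⟩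
  have hφres : ∀ s ∈ T, s.ht ∈ E → ∀ ξ ∈ E, ξ ≤ s.ht → φ (s.res ξ) = (φ s).res ξ := by
    intro s hs hsE ξ hξ hle
    obtain ⟨p, hp, hps⟩ := hφ s hs hsE
    obtain ⟨p', hp', hlev⟩ := hξ
    obtain ⟨r, hr, hrp, hrp'⟩ := hGdir p hp p' hp'
    exact hφu _ _ ⟨r, hr, r.res _ (hrp.2 hps) ξ (hrp'.1 hlev) hle⟩
  -- injectivity on one level
  have hφinj : ∀ s ∈ T, ∀ t ∈ T, s.ht ∈ E → t.ht ∈ E → φ s = φ t → s = t := by
    intro s hs t ht hsE htE h
    obtain ⟨p, hp, hps⟩ := hφ s hs hsE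
    obtain ⟨p', hp', hpt⟩ := hφ t ht htE
    obtain ⟨r, hr, hrp, hrp'⟩ := hGdir p hp p' hp'
    exact (r.inj _ (hrp.2 hps) _ (hrp'.2 hpt)).2 h
  have hinc1 : ∀ s ∈ T, ∀ t ∈ T, s.ht ∈ E → t.ht ∈ E → ¬ s ≤ t → ¬ φ s ≤ φ t := by
    intro s hs t ht hsE htE hst h
    have h4 : s.ht ≤ t.ht := by
      have := h.1
      rwa [(hφmem s hs hsE).2, (hφmem t ht htE).2] at this
    have h5 : (φ t).res s.ht = φ s := by
      have := le_iff_res.1 h
      rwa [(hφmem s hs hsE).2] at this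
    rw [← hφres t ht htE s.ht hsE h4] at h5
    have h6 : (t.res s.ht).ht = s.ht := res_ht_of_le h4
    have h7 : t.res s.ht = s :=
      hφinj _ (hT.down t ht _) s hs (by rw [h6]; exact hsE) hsE h5
    exact hst (le_iff_res.2 h7)
  refine ⟨E, φ, {w | ∃ s ∈ T, ∃ t ∈ T, s.ht ∈ E ∧ t.ht ∈ E ∧ Mt w s t ∧ Lx s t ∧ Lx (φ s) (φ t)},
    ⟨?_, hφmem, hφres⟩, ?_⟩
  · intro α
    obtain ⟨p, hp, hpD⟩ := hGD (e (Sum.inl α))
    rw [hDe] at hpD
    obtain ⟨ξ, hξ, hlt⟩ := hpD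
    exact ⟨ξ, ⟨p, hp, hξ⟩, hlt⟩
  · intro s hs t ht hsE htE w hw hlx
    constructor
    · rintro ⟨s', hs', t', ht', hsE', htE', hw', hlx', hφlx'⟩
      obtain ⟨p1, hp1, hq1⟩ := hφ s' hs' hsE'
      obtain ⟨p2, hp2, hq2⟩ := hφ t' ht' htE'
      obtain ⟨p3, hp3, hq3⟩ := hφ s hs hsE
      obtain ⟨p4, hp4, hq4⟩ := hφ t ht htE
      obtain ⟨r1, hr1, a1, a2⟩ := hGdir p1 hp1 p2 hp2
      obtain ⟨r2, hr2, b1, b2⟩ := hGdir p3 hp3 p4 hp4
      obtain ⟨r, hr, c1, c2⟩ := hGdir r1 hr1 r2 hr2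
      exact r.sgn _ (c1.2 (a1.2 hq1)) _ (c1.2 (a2.2 hq2)) _ (c2.2 (b1.2 hq3)) _ (c2.2 (b2.2 hq4))
        w hw' hw hlx' hlx hφlx'
    · intro hwK
      have hinc : Inc (φ s) (φ t) :=
        ⟨hinc1 s hs t ht hsE htE hw.inc.1, hinc1 t ht s hs htE hsE hw.inc.2⟩
      rcases hinc.lx_or with h | h
      · exact absurd ⟨s, hs, t, ht, hsE, htE, hw, hlx, h⟩ hwK
      · exact h

end Pool.Agent.MOO.H97
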